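import Pool.Agent.H165R3.BPE

set_option autoImplicit false
open MeasureTheory Filter Topology Finset

namespace Pool.Agent.Q211.King

/-- deterministic tiling -/
theorem tile (β : ℕ → ℕ → ℝ) (K : ℝ) (L : ℝ) (hL : |L| ≤ K)
    (h0 : ∀ i, β i 0 = 0) (hK : ∀ i k, |β i k| ≤ K * k)
    (hsup : ∀ i j k, β i j + β (i + j) k ≤ β i (j + k)) (N : ℕ) (Bad : ℕ → ℝ)
    (hB0 : ∀ i, 0 ≤ Bad i)
    (hBad : ∀ i, Bad i = 1 ∨ ∃ k, 1 ≤ k ∧ k ≤ N ∧ k * L ≤ β i k) :
    ∀ n i, n * L - 2 * K * ∑ j ∈ range n, Bad (i + j) - 2 * K * N ≤ β i n := by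
  have hK0 : 0 ≤ K := (abs_nonneg _).trans hL
  intro n
  induction n using Nat.strong_induction_on with
  | _ n ih =>
    intro i
    have hsum0 : ∀ m i, 0 ≤ ∑ j ∈ range m, Bad (i + j) := fun m i =>
      sum_nonneg fun j _ => hB0 _
    rcases Nat.eq_zero_or_pos n with rfl | hn
    · rw [h0]
      have : 0 ≤ 2 * K * (N : ℝ) := by positivity
      simp
      linarith
    rcases hBad i with h | ⟨k, hk1, hkN, hk⟩
    · have h1 := ih (n - 1) (by omega) (i + 1)
      have h2 := hsup i 1 (n - 1)
      rw [show 1 + (n - 1) = n by omega] at h2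
      have h3 := (abs_le.mp (hK i 1)).1
      have h4 : ∑ j ∈ range n, Bad (i + j) = 1 + ∑ j ∈ range (n - 1), Bad (i + 1 + j) := by
        obtain ⟨m, rfl⟩ : ∃ m, n = m + 1 := ⟨n - 1, by omega⟩
        rw [sum_range_succ', add_comm]
        simp only [add_zero, h, Nat.add_sub_cancel]
        congr 1
        exact sum_congr rfl fun j _ => by rw [show i + (j + 1) = i + 1 + j by ring]
      have h5 : ((n - 1 : ℕ) : ℝ) = n - 1 := by
        rw [Nat.cast_sub hn]
        simp
      rw [h5] at h1
      rw [h4]
      have h6 := (abs_le.mp hL).2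
      push_cast at h3
      nlinarith
    · rcases le_or_gt k n with hkn | hkn
      · have h1 := ih (n - k) (by omega) (i + k)
        have h2 := hsup i k (n - k)
        rw [show k + (n - k) = n by omega] at h2
        have h4 : ∑ j ∈ range (n - k), Bad (i + k + j) ≤ ∑ j ∈ range n, Bad (i + j) := by
          have e : ∑ j ∈ range n, Bad (i + j) =
              ∑ j ∈ range k, Bad (i + j) + ∑ j ∈ range (n - k), Bad (i + k + j) := by
            have : range n = range (k + (n - k)) := by rw [show k + (n - k) = n by omega]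
            rw [this, sum_range_add]
            congr 1
            exact sum_congr rfl fun j _ => by rw [add_assoc]
          rw [e]
          linarith [hsum0 k i]
        have h5 : ((n - k : ℕ) : ℝ) = n - k := by
          rw [Nat.cast_sub hkn]
        rw [h5] at h1
        have h7 : 2 * K * ∑ j ∈ range (n - k), Bad (i + k + j) ≤
            2 * K * ∑ j ∈ range n, Bad (i + j) := by gcongr
        nlinarith
      · have h1 := (abs_le.mp (hK i n)).1
        have h2 : (n : ℝ) ≤ N := by
          have : n ≤ N := by omega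
          exact_mod_cast this
        have h3 := (abs_le.mp hL).2
        have h4 : 0 ≤ 2 * K * ∑ j ∈ range n, Bad (i + j) := by
          have := hsum0 n i
          positivity
        have hn' : (0 : ℝ) ≤ n := Nat.cast_nonneg n
        have h5 : (n : ℝ) * L ≤ n * K := mul_le_mul_of_nonneg_left h3 hn'
        have h6 : K * (n : ℝ) ≤ K * N := mul_le_mul_of_nonneg_left h2 hK0
        nlinarith

variable {Ω : Type*} [MeasurableSpace Ω] {μ : Measure Ω} [IsProbabilityMeasure μ]

/-- Kingman's theorem for superadditive processes with bounded increments -/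
theorem kingman {θ : Ω → Ω} (hθ : MeasurePreserving θ μ μ) (b : ℕ → Ω → ℝ)
    (hm : ∀ k, Measurable (b k)) (C : ℝ) (hC : ∀ k ω, |b k ω| ≤ C * k)
    (hsup : ∀ j k ω, b j ω + b k (θ^[j] ω) ≤ b (j + k) ω) :
    ∀ᵐ ω ∂μ, ∃ l, Tendsto (fun k : ℕ => b k ω / k) atTop (𝓝 l) := by
  have hne : Nonempty Ω := nonempty_of_isProbabilityMeasure μ
  have hC0 : 0 ≤ C := by
    obtain ⟨ω⟩ := hne
    have := (abs_nonneg _).trans (hC 1 ω)
    simpa using this
  set r : ℕ → Ω → ℝ := fun k ω => b k ω / k with hr
  have hrb : ∀ k ω, |r k ω| ≤ C := by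
    intro k ω
    simp only [hr]
    rcases Nat.eq_zero_or_pos k with rfl | hk
    · simpa using hC0
    · have hk' : (0 : ℝ) < k := by exact_mod_cast hk
      rw [abs_div, abs_of_pos hk', div_le_iff₀ hk']
      exact hC k ω
  have hrm : ∀ k, Measurable (r k) := fun k => (hm k).div_const _
  set U : Ω → ℝ := fun ω => limsup (fun k => r k ω) atTop with hU
  have hUm : Measurable U := Measurable.limsup hrm
  have hbdA : ∀ ω, IsBoundedUnder (· ≤ ·) atTop (fun k => r k ω) := fun ω =>
    isBoundedUnder_of ⟨C, fun k => (abs_le.mp (hrb k ω)).2⟩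
  have hbdB : ∀ ω, IsBoundedUnder (· ≥ ·) atTop (fun k => r k ω) := fun ω =>
    isBoundedUnder_of ⟨-C, fun k => (abs_le.mp (hrb k ω)).1⟩
  have hUb : ∀ ω, |U ω| ≤ C := by
    intro ω
    rw [abs_le]
    constructor
    · exact le_limsup_of_frequently_le
        (Frequently.of_forall fun k => (abs_le.mp (hrb k ω)).1) (hbdA ω)
    · exact limsup_le_of_le (hbdB ω).isCoboundedUnder_le
        (Eventually.of_forall fun k => (abs_le.mp (hrb k ω)).2)
  -- comparison of `U ∘ θ` with `U`
  have hUle : ∀ ω, U (θ ω) ≤ U ω := by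
    intro ω
    refine le_of_forall_pos_le_add fun δ hδ => ?_
    have h1 : ∃ᶠ k in atTop, U (θ ω) - δ / 2 < r k (θ ω) :=
      frequently_lt_of_lt_limsup (hbdB (θ ω)).isCoboundedUnder_le (by
        show U (θ ω) - δ / 2 < U (θ ω)
        linarith)
    obtain ⟨K0, hK0⟩ := exists_nat_gt (2 * C / (δ / 2))
    have h2 : ∃ᶠ k in atTop, U (θ ω) - δ ≤ r k ω := by
      have h3 : ∃ᶠ k in atTop, U (θ ω) - δ ≤ r (k + 1) ω := by
        refine (h1.and_eventually (eventually_ge_atTop K0)).mono ?_
        rintro k ⟨hk, hkK⟩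
        have h4 := hsup 1 k ω
        simp only [Function.iterate_one] at h4
        have h5 := (abs_le.mp (hC 1 ω)).1
        have h6 := (abs_le.mp (hUb (θ ω))).2
        have hk1 : (0 : ℝ) < (k : ℝ) + 1 := by positivity
        simp only [hr] at hk ⊢
        rcases Nat.eq_zero_or_pos k with rfl | hkp
        · exfalso
          have : (0 : ℝ) < K0 := lt_of_le_of_lt (by positivity) hK0
          have h7 : (0 : ℕ) < K0 := by exact_mod_cast this
          omega
        have hk' : (0 : ℝ) < k := by exact_mod_cast hkp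
        rw [lt_div_iff₀ hk'] at hk
        push_cast
        rw [le_div_iff₀ hk1]
        have h8 : 2 * C < δ / 2 * k := by
          rw [div_lt_iff₀ (by positivity)] at hK0
          have : (K0 : ℝ) ≤ k := by exact_mod_cast hkK
          nlinarith
        rw [show 1 + k = k + 1 by ring] at h4
        push_cast at h5
        nlinarith
      rw [frequently_atTop] at h3 ⊢
      intro a
      obtain ⟨c, hc, hc2⟩ := h3 a
      exact ⟨c + 1, by omega, hc2⟩
    have := le_limsup_of_frequently_le h2 (hbdA ω)
    show U (θ ω) ≤ U ω + δ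
    have h9 : U (θ ω) - δ ≤ U ω := this
    linarith
  have hUint : Integrable U μ :=
    Integrable.mono' (integrable_const C) hUm.aestronglyMeasurable
      (Eventually.of_forall fun ω => hUb ω)
  have hUint2 : Integrable (fun ω => U (θ ω)) μ := hθ.integrable_comp_of_integrable hUint
  have hUeq : ∀ᵐ ω ∂μ, U (θ ω) = U ω := by
    have h1 : ∫ ω, (U ω - U (θ ω)) ∂μ = 0 := by
      have h3 : ∫ ω, U (θ ω) ∂μ = ∫ ω, U ω ∂μ := by
        have h4 := integral_map (μ := μ) hθ.measurable.aemeasurable (f := U)
          hUm.aestronglyMeasurable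
        rw [hθ.map_eq] at h4
        exact h4.symm
      rw [integral_sub hUint hUint2, h3, sub_self]
    have h2 := (integral_eq_zero_iff_of_nonneg (fun ω => sub_nonneg.mpr (hUle ω))
      (hUint.sub hUint2)).mp h1
    filter_upwards [h2] with ω hω
    simp only [Pi.zero_apply] at hω
    linarith
  have hUall : ∀ᵐ ω ∂μ, ∀ i : ℕ, U (θ^[i] ω) = U ω := by
    have h1 : ∀ i : ℕ, ∀ᵐ ω ∂μ, U (θ (θ^[i] ω)) = U (θ^[i] ω) := fun i =>
      (hθ.iterate i).quasiMeasurePreserving.ae hUeq
    rw [← ae_all_iff] at h1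
    filter_upwards [h1] with ω hω i
    induction i with
    | zero => rfl
    | succ i ih =>
      rw [Function.iterate_succ_apply', hω i, ih]
  -- bad sets
  have hmain : ∀ ε : ℝ, 0 < ε → ∀ᵐ ω ∂μ, ∀ᶠ n : ℕ in atTop, U ω - ε ≤ r n ω := by
    intro ε hε
    set B : ℕ → Set Ω := fun N => {ω | ∀ k, 1 ≤ k → k ≤ N → b k ω < k * (U ω - ε / 4)} with hB
    have hBm : ∀ N, MeasurableSet (B N) := by
      intro N
      have : B N = ⋂ k ∈ Finset.Icc 1 N, {ω | b k ω < k * (U ω - ε / 4)} := by
        ext ω
        simp [hB]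
      rw [this]
      exact Finset.measurableSet_biInter _ fun k _ =>
        measurableSet_lt (hm k) ((hUm.sub_const _).const_mul _)
    have hBanti : Antitone B := fun a c hac ω hω k hk1 hk2 => hω k hk1 (hk2.trans hac)
    have hBempty : ⋂ N, B N = ∅ := by
      ext ω
      simp only [Set.mem_iInter, Set.mem_empty_iff_false, iff_false]
      intro hω
      have h1 : ∃ᶠ k in atTop, U ω - ε / 4 < r k ω :=
        frequently_lt_of_lt_limsup (hbdB ω).isCoboundedUnder_le (by
          show U ω - ε / 4 < U ω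
          linarith)
      obtain ⟨k, hk, hk1⟩ := (h1.and_eventually (eventually_ge_atTop 1)).exists
      have h2 := hω k k hk1 le_rfl
      have hk' : (0 : ℝ) < k := by exact_mod_cast hk1
      simp only [hr] at hk
      rw [lt_div_iff₀ hk'] at hk
      linarith
    have hB0 : Tendsto (fun N => μ.real (B N)) atTop (𝓝 0) := by
      have h1 := tendsto_measure_iInter_atTop (μ := μ) (s := B)
        (fun N => (hBm N).nullMeasurableSet) hBanti ⟨0, measure_ne_top _ _⟩
      rw [hBempty, measure_empty] at h1
      have h2 := (ENNReal.tendsto_toReal ENNReal.zero_ne_top).comp h1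
      simpa [Measure.real, Function.comp_def] using h2
    set F : ℕ → Ω → ℝ := fun N => (B N).indicator (fun _ => (1 : ℝ)) with hF
    have hFm : ∀ N, Measurable (F N) := fun N => measurable_const.indicator (hBm N)
    have hFb : ∀ N ω, |F N ω| ≤ 1 := by
      intro N ω
      simp only [hF, Set.indicator]
      split_ifs <;> simp
    set G : ℕ → Ω → ℝ := fun N => μ[F N | MeasurableSpace.invariants θ] with hG
    have hbk : ∀ᵐ ω ∂μ, ∀ N, Tendsto (fun n : ℕ => (n : ℝ)⁻¹ *
        ∑ k ∈ Finset.range n, F N (θ^[k] ω)) atTop (𝓝 (G N ω)) := by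
      rw [ae_all_iff]
      intro N
      exact H165R3.BPE.birkhoff hθ (F N) (hFm N) 1 (hFb N)
    have hG0 : ∀ᵐ ω ∂μ, ∀ N, 0 ≤ G N ω := by
      rw [ae_all_iff]
      intro N
      refine condExp_nonneg (Eventually.of_forall fun ω => ?_)
      simp only [hF, Set.indicator, Pi.zero_apply]
      split_ifs <;> norm_num
    have hGint : ∀ N, ∫ ω, G N ω ∂μ = μ.real (B N) := by
      intro N
      rw [hG]
      simp only
      rw [integral_condExp (MeasurableSpace.invariants_le θ), hF]
      simp only
      rw [integral_indicator_const _ (hBm N)]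
      simp
    have hinf : ∀ δ : ℝ, 0 < δ → ∀ᵐ ω ∂μ, ∃ N, G N ω < δ := by
      intro δ hδ
      rw [ae_iff]
      have h1 : ∀ N, μ.real {ω | ¬ ∃ N, G N ω < δ} ≤ μ.real (B N) / δ := by
        intro N
        have h2 : {ω | ¬ ∃ N, G N ω < δ} ⊆ {ω | δ ≤ G N ω} := by
          intro ω hω
          simp only [Set.mem_ofPred_eq, not_exists, not_lt] at hω
          exact hω N
        have h3 := mul_meas_ge_le_integral_of_nonneg (μ := μ) (f := G N)
          (by filter_upwards [hG0] with ω hω using hω N) integrable_condExp δ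
        rw [hGint] at h3
        rw [le_div_iff₀ hδ]
        have h4 := measureReal_mono (μ := μ) h2
        nlinarith
      have h2 : μ.real {ω | ¬ ∃ N, G N ω < δ} ≤ 0 := by
        have h5 : Tendsto (fun N => μ.real (B N) / δ) atTop (𝓝 0) := by
          simpa using hB0.div_const δ
        exact ge_of_tendsto' h5 h1
      have h3 := le_antisymm h2 measureReal_nonneg
      rwa [measureReal_eq_zero_iff] at h3
    set K : ℝ := C + ε + 1 with hKdef
    have hKpos : 0 < K := by linarith
    filter_upwards [hUall, hbk, hG0, hinf (ε / (16 * K)) (by positivity)] with ω h1 h2 h3 h4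
    obtain ⟨N, hN⟩ := h4
    have hL : |U ω - ε / 4| ≤ K := by
      have := abs_le.mp (hUb ω)
      rw [abs_le]
      constructor <;> linarith [this.1, this.2]
    have htile := tile (fun i k => b k (θ^[i] ω)) K (U ω - ε / 4) hL
      (fun i => by
        have := hC 0 (θ^[i] ω)
        simpa using this)
      (fun i k => (hC k _).trans (by gcongr; linarith))
      (fun i j k => by
        have := hsup j k (θ^[i] ω)
        rw [← Function.iterate_add_apply, add_comm j i] at this
        exact this)
      N (fun i => F N (θ^[i] ω))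
      (fun i => by
        simp only [hF, Set.indicator]
        split_ifs <;> norm_num)
      (fun i => by
        by_cases hb : θ^[i] ω ∈ B N
        · left
          simp [hF, hb]
        · right
          simp only [hB, Set.mem_ofPred_eq, not_forall, not_lt] at hb
          obtain ⟨k, hk1, hk2, hk3⟩ := hb
          rw [h1 i] at hk3
          exact ⟨k, hk1, hk2, hk3⟩)
    have h5 : ∀ᶠ n : ℕ in atTop, (n : ℝ)⁻¹ * ∑ k ∈ Finset.range n, F N (θ^[k] ω) <
        ε / (16 * K) + ε / (16 * K) := by
      have h6 : G N ω < ε / (16 * K) + ε / (16 * K) := by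
        have : 0 < ε / (16 * K) := by positivity
        linarith
      exact (h2 N).eventually_lt_const h6
    obtain ⟨n0, hn0⟩ := exists_nat_gt (8 * K * N / ε)
    filter_upwards [h5, eventually_ge_atTop (n0 + 1)] with n hn1 hn2
    have hnpos : (0 : ℝ) < n := by
      have : 0 < n := by omega
      exact_mod_cast this
    have h7 := htile n 0
    simp only [Function.iterate_zero, id_eq, zero_add] at h7
    rw [inv_mul_lt_iff₀ hnpos] at hn1
    have h8 : 2 * K * N ≤ ε / 4 * n := by
      rw [div_lt_iff₀ hε] at hn0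
      have : (n0 : ℝ) ≤ n := by
        have : n0 ≤ n := by omega
        exact_mod_cast this
      nlinarith
    have h9 : 2 * K * ∑ k ∈ Finset.range n, F N (θ^[k] ω) ≤ ε / 4 * n := by
      have h10 : 2 * K * ∑ k ∈ Finset.range n, F N (θ^[k] ω) ≤
          2 * K * (n * (ε / (16 * K) + ε / (16 * K))) := by gcongr
      have h11 : 2 * K * (n * (ε / (16 * K) + ε / (16 * K))) = ε / 4 * n := by
        field_simp
        ring
      linarith
    simp only [hr]
    rw [le_div_iff₀ hnpos]
    nlinarith
  have hall : ∀ᵐ ω ∂μ, ∀ j : ℕ, ∀ᶠ n : ℕ in atTop, U ω - 1 / ((j : ℝ) + 1) ≤ r n ω := by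
    rw [ae_all_iff]
    intro j
    exact hmain _ (by positivity)
  filter_upwards [hall] with ω hω
  refine ⟨U ω, ?_⟩
  show Tendsto (fun k => r k ω) atTop (𝓝 (U ω))
  rw [Metric.tendsto_atTop']
  intro ε hε
  obtain ⟨j, hj⟩ := exists_nat_one_div_lt hε
  have h1 : ∀ᶠ n : ℕ in atTop, r n ω < U ω + ε := by
    refine eventually_lt_of_limsup_lt ?_ (hbdA ω)
    show U ω < U ω + ε
    linarith
  obtain ⟨N1, hN1⟩ := eventually_atTop.mp (h1.and (hω j))
  refine ⟨N1, fun n hn => ?_⟩
  have h2 := hN1 n hn.le
  rw [Real.dist_eq, abs_lt]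
  constructor <;> linarith [h2.1, h2.2]

end Pool.Agent.Q211.King
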