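import Pool.Agent.Q211.King.Kingman

set_option autoImplicit false
open MeasureTheory Filter Topology Finset
open scoped Classical

namespace Pool.Agent.Q211.King

section Words

variable {Z A Ω : Type*} [AddCommGroup Z] (f : Ω → Z → A → ℝ) (s : A → Z)

/-- total payoff along a word of actions -/
def pay (ω : Ω) : Z → List A → ℝ
  | _, [] => 0
  | z, a :: w => f ω z a + pay ω (z + s a) w

theorem pay_append (ω : Ω) (z : Z) (w w' : List A) :
    pay f s ω z (w ++ w') = pay f s ω z w + pay f s ω (z + (w.map s).sum) w' := by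
  induction w generalizing z with
  | nil => simp [pay]
  | cons a w ih =>
    simp only [List.cons_append, pay, List.map_cons, List.sum_cons]
    rw [ih, add_assoc z]
    ring

theorem pay_bound (C : ℝ) (hC : ∀ ω z a, |f ω z a| ≤ C) (ω : Ω) (z : Z) (w : List A) :
    |pay f s ω z w| ≤ C * w.length := by
  induction w generalizing z with
  | nil => simp [pay]
  | cons a w ih =>
    simp only [pay, List.length_cons]
    push_cast
    have h1 := hC ω z a
    have h2 := ih (z + s a)
    calc |f ω z a + pay f s ω (z + s a) w| ≤ |f ω z a| + |pay f s ω (z + s a) w| := abs_add_le _ _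
      _ ≤ C * (w.length + 1) := by linarith

theorem lists_ne (M : Multiset A) : M.lists.toFinset.Nonempty := ⟨M.toList, by simp⟩

/-- best total payoff among the words with a given multiset of actions -/
noncomputable def T (M : Multiset A) (ω : Ω) (z : Z) : ℝ :=
  M.lists.toFinset.sup' (lists_ne M) (pay f s ω z)

theorem T_le (w : List A) (ω : Ω) (z : Z) : pay f s ω z w ≤ T f s (w : Multiset A) ω z :=
  Finset.le_sup' (pay f s ω z) (by simp)

theorem T_ex (M : Multiset A) (ω : Ω) (z : Z) :
    ∃ w : List A, (w : Multiset A) = M ∧ pay f s ω z w = T f s M ω z := by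
  obtain ⟨w, hw, h⟩ := Finset.exists_mem_eq_sup' (s := M.lists.toFinset) (lists_ne M)
    (pay f s ω z)
  rw [Multiset.mem_toFinset, Multiset.mem_lists_iff] at hw
  exact ⟨w, hw.symm, h.symm⟩

theorem T_super (M M' : Multiset A) (ω : Ω) (z : Z) :
    T f s M ω z + T f s M' ω (z + (M.map s).sum) ≤ T f s (M + M') ω z := by
  obtain ⟨w, hw, h⟩ := T_ex f s M ω z
  obtain ⟨w', hw', h'⟩ := T_ex f s M' ω (z + (M.map s).sum)
  rw [← h, ← h']
  have h1 := T_le f s (w ++ w') ω z
  rw [pay_append] at h1
  have h2 : ((w ++ w' : List A) : Multiset A) = M + M' := by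
    rw [← Multiset.coe_add, hw, hw']
  have h3 : (w.map s).sum = (M.map s).sum := by
    rw [← hw, Multiset.map_coe, Multiset.sum_coe]
  rw [h2, h3] at h1
  exact h1

theorem T_bound (C : ℝ) (hC : ∀ ω z a, |f ω z a| ≤ C) (M : Multiset A) (ω : Ω) (z : Z) :
    |T f s M ω z| ≤ C * Multiset.card M := by
  obtain ⟨w, hw, h⟩ := T_ex f s M ω z
  rw [← h, ← hw]
  exact pay_bound f s C hC ω z w

theorem pay_shift (τ : Ω → Ω) (x : Z) (hτ : ∀ ω z a, f (τ ω) z a = f ω (x + z) a) (ω : Ω)
    (z : Z) (w : List A) : pay f s (τ ω) z w = pay f s ω (x + z) w := by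
  induction w generalizing z with
  | nil => rfl
  | cons a w ih =>
    simp only [pay]
    rw [ih, hτ, add_assoc]

theorem T_shift (τ : Ω → Ω) (x : Z) (hτ : ∀ ω z a, f (τ ω) z a = f ω (x + z) a) (ω : Ω)
    (z : Z) (M : Multiset A) : T f s M (τ ω) z = T f s M ω (x + z) := by
  unfold T
  refine Finset.sup'_congr _ rfl fun w _ => pay_shift f s τ x hτ ω z w

theorem T_shift_iter (τ : Ω → Ω) (x : Z) (hτ : ∀ ω z a, f (τ ω) z a = f ω (x + z) a) (j : ℕ)
    (ω : Ω) (z : Z) (M : Multiset A) : T f s M (τ^[j] ω) z = T f s M ω (j • x + z) := by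
  induction j generalizing z with
  | zero => simp
  | succ j ih =>
    rw [Function.iterate_succ_apply', T_shift f s τ x hτ, ih, succ_nsmul, add_assoc]

variable [MeasurableSpace Ω]

theorem pay_meas (hf : ∀ z a, Measurable (fun ω => f ω z a)) (z : Z) (w : List A) :
    Measurable (fun ω => pay f s ω z w) := by
  induction w generalizing z with
  | nil => exact measurable_const
  | cons a w ih =>
    simp only [pay]
    exact (hf z a).add (ih _)

theorem T_meas (hf : ∀ z a, Measurable (fun ω => f ω z a)) (z : Z) (M : Multiset A) :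
    Measurable (fun ω => T f s M ω z) := by
  have : (fun ω => T f s M ω z) =
      M.lists.toFinset.sup' (lists_ne M) (fun w ω => pay f s ω z w) := by
    funext ω
    exact (Finset.sup'_apply (lists_ne M) (fun w ω => pay f s ω z w) ω).symm
  rw [this]
  exact Finset.measurable_sup' _ fun w _ => pay_meas f s hf z w

/-- almost sure limits along the multiples of a multiset of actions -/
theorem T_lim {μ : Measure Ω} [IsProbabilityMeasure μ] (τ : Z → Ω → Ω)
    (hτm : ∀ z, MeasurePreserving (τ z) μ μ)
    (hτ : ∀ x ω z a, f (τ x ω) z a = f ω (x + z) a)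
    (hf : ∀ z a, Measurable (fun ω => f ω z a)) (C : ℝ) (hC : ∀ ω z a, |f ω z a| ≤ C)
    (z : Z) (M : Multiset A) :
    ∀ᵐ ω ∂μ, ∃ l, Tendsto (fun k : ℕ => T f s (k • M) ω z / k) atTop (𝓝 l) := by
  refine kingman (hτm (M.map s).sum) (fun k ω => T f s (k • M) ω z)
    (fun k => T_meas f s hf z _) (C * Multiset.card M) (fun k ω => ?_) (fun j k ω => ?_)
  · refine (T_bound f s C hC (k • M) ω z).trans (le_of_eq ?_)
    rw [Multiset.card_nsmul]
    push_cast
    ring
  · rw [T_shift_iter f s (τ (M.map s).sum) (M.map s).sum (hτ _)]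
    have h1 := T_super f s (j • M) (k • M) ω z
    rw [Multiset.map_nsmul, Multiset.sum_nsmul, ← add_nsmul, add_comm z] at h1
    exact h1

/-- the optimal total payoff over `n` stages -/
noncomputable def W {Z A Ω : Type*} [AddCommGroup Z] (f : Ω → Z → A → ℝ) (s : A → Z) :
    ℕ → Ω → Z → ℝ
  | 0, _, _ => 0
  | n + 1, ω, z => ⨆ a, (f ω z a + W f s n ω (z + s a))

end Words

section Value

variable {Z A Ω : Type*} [AddCommGroup Z] [Finite A] [Nonempty A]
  (f : Ω → Z → A → ℝ) (s : A → Z)

omit [Nonempty A] in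
theorem W_ge (ω : Ω) (w : List A) : ∀ z, pay f s ω z w ≤ W f s w.length ω z := by
  induction w with
  | nil => intro z; simp [pay, W]
  | cons a w ih =>
    intro z
    simp only [pay, List.length_cons, W]
    refine le_trans ?_ (le_ciSup (Set.finite_range _).bddAbove a)
    linarith [ih (z + s a)]

theorem W_ex (ω : Ω) (n : ℕ) : ∀ z, ∃ w : List A, w.length = n ∧ pay f s ω z w = W f s n ω z := by
  induction n with
  | zero => intro z; exact ⟨[], rfl, rfl⟩
  | succ n ih =>
    intro z
    obtain ⟨a, ha⟩ := exists_eq_ciSup_of_finite (f := fun a => f ω z a + W f s n ω (z + s a))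
    obtain ⟨w, hw, hw2⟩ := ih (z + s a)
    refine ⟨a :: w, by simp [hw], ?_⟩
    simp only [pay, W]
    rw [hw2]
    exact ha

theorem value_lim [Countable A] [MeasurableSpace Ω] {μ : Measure Ω} [IsProbabilityMeasure μ]
    (τ : Z → Ω → Ω) (hτm : ∀ z, MeasurePreserving (τ z) μ μ)
    (hτ : ∀ x ω z a, f (τ x ω) z a = f ω (x + z) a)
    (hf : ∀ z a, Measurable (fun ω => f ω z a)) (C : ℝ) (hC : ∀ ω z a, |f ω z a| ≤ C)
    (z : Z) :
    ∀ᵐ ω ∂μ, ∃ l, Tendsto (fun n : ℕ => W f s n ω z / n) atTop (𝓝 l) := by
  have hall : ∀ᵐ ω ∂μ, ∀ M : Multiset A, ∃ l,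
      Tendsto (fun k : ℕ => T f s (k • M) ω z / k) atTop (𝓝 l) := by
    rw [ae_all_iff]
    exact fun M => T_lim f s τ hτm hτ hf C hC z M
  filter_upwards [hall] with ω hω
  choose ℓ hℓ using hω
  have hC0 : 0 ≤ C := (abs_nonneg _).trans (hC ω z (Classical.arbitrary A))
  have hCa : 0 ≤ (Nat.card A : ℝ) := Nat.cast_nonneg _
  -- values of the directions
  have hℓb : ∀ M, |ℓ M| ≤ C * Multiset.card M := by
    intro M
    refine le_of_tendsto (hℓ M).abs (Eventually.of_forall fun k => ?_)
    rcases Nat.eq_zero_or_pos k with rfl | hk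
    · simp
      positivity
    · have hk' : (0 : ℝ) < k := by exact_mod_cast hk
      rw [abs_div, abs_of_pos hk', div_le_iff₀ hk']
      refine (T_bound f s C hC (k • M) ω z).trans (le_of_eq ?_)
      rw [Multiset.card_nsmul]
      push_cast
      ring
  set S : Set ℝ := {x | ∃ M : Multiset A, M ≠ 0 ∧ x = ℓ M / Multiset.card M} with hS
  have hSne : S.Nonempty := ⟨_, {Classical.arbitrary A}, by simp, rfl⟩
  have hcard : ∀ M : Multiset A, M ≠ 0 → (0 : ℝ) < Multiset.card M := by
    intro M hM
    exact_mod_cast Multiset.card_pos.mpr hM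
  have hSb : BddAbove S := by
    refine ⟨C, ?_⟩
    rintro x ⟨M, hM, rfl⟩
    rw [div_le_iff₀ (hcard M hM)]
    exact (le_abs_self _).trans (hℓb M)
  set Λ := sSup S with hΛ
  have hΛb : |Λ| ≤ C := by
    rw [abs_le]
    constructor
    · obtain ⟨x, M, hM, rfl⟩ := hSne
      refine le_trans ?_ (le_csSup hSb ⟨M, hM, rfl⟩)
      rw [le_div_iff₀ (hcard M hM)]
      linarith [(abs_le.mp (hℓb M)).1]
    · refine csSup_le hSne ?_
      rintro x ⟨M, hM, rfl⟩
      rw [div_le_iff₀ (hcard M hM)]
      exact (le_abs_self _).trans (hℓb M)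
  refine ⟨Λ, ?_⟩
  -- lower bound
  have hlow : ∀ ε : ℝ, 0 < ε → ∀ᶠ n : ℕ in atTop, Λ - ε ≤ W f s n ω z / n := by
    intro ε hε
    obtain ⟨x, ⟨M, hM, rfl⟩, hx⟩ := exists_lt_of_lt_csSup hSne (show Λ - ε / 2 < Λ by linarith)
    set m := Multiset.card M with hm
    have hmpos : 0 < m := Multiset.card_pos.mpr hM
    have hm' : (0 : ℝ) < m := hcard M hM
    -- k = n / m
    have h1 : ∀ n : ℕ, T f s ((n / m) • M) ω z - C * m ≤ W f s n ω z := by
      intro n
      obtain ⟨w, hw, hw2⟩ := T_ex f s ((n / m) • M) ω z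
      have hlen : w.length = n / m * m := by
        have : Multiset.card (w : Multiset A) = w.length := Multiset.coe_card w
        rw [← this, hw, Multiset.card_nsmul]
      set w' : List A := List.replicate (n % m) (Classical.arbitrary A) with hw'
      have h2 := W_ge f s ω (w ++ w') z
      rw [pay_append, List.length_append, hlen, hw', List.length_replicate,
        Nat.div_add_mod' n m, hw2, ← hw'] at h2
      have h3 := (abs_le.mp (pay_bound f s C hC ω (z + (w.map s).sum) w')).1
      have h4 : (w'.length : ℝ) ≤ m := by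
        rw [hw', List.length_replicate]
        exact_mod_cast (Nat.mod_lt n hmpos).le
      nlinarith
    have h5 : Tendsto (fun n : ℕ => T f s ((n / m) • M) ω z / ((n / m : ℕ) : ℝ)) atTop
        (𝓝 (ℓ M)) := (hℓ M).comp (Nat.tendsto_div_const_atTop hmpos.ne')
    have h6 : ∀ᶠ n : ℕ in atTop, ℓ M - ε * m / 4 <
        T f s ((n / m) • M) ω z / ((n / m : ℕ) : ℝ) :=
      h5.eventually_const_lt (by
        have : 0 < ε * m / 4 := by positivity
        linarith)
    obtain ⟨n0, hn0⟩ := exists_nat_gt (8 * (C * m + |ℓ M|) / ε)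
    filter_upwards [h6, eventually_ge_atTop (n0 + 1), eventually_ge_atTop m] with n hn1 hn2 hn3
    have hnpos : (0 : ℝ) < n := by
      have : 0 < n := by omega
      exact_mod_cast this
    have hkpos : (0 : ℝ) < ((n / m : ℕ) : ℝ) := by
      exact_mod_cast Nat.div_pos hn3 hmpos
    rw [lt_div_iff₀ hkpos] at hn1
    have h7 := h1 n
    have h8 : ((n / m : ℕ) : ℝ) * m ≤ n := by
      exact_mod_cast Nat.div_mul_le_self n m
    have h9 : (n : ℝ) ≤ ((n / m : ℕ) : ℝ) * m + m := by
      have := Nat.lt_div_mul_add (a := n) hmpos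
      have h10 : n ≤ n / m * m + m := this.le
      exact_mod_cast h10
    have h11 : 8 * (C * m + |ℓ M|) < ε * n := by
      rw [div_lt_iff₀ hε] at hn0
      have : (n0 : ℝ) ≤ n := by
        have : n0 ≤ n := by omega
        exact_mod_cast this
      nlinarith
    rw [le_div_iff₀ hnpos]
    -- compare with `ℓ M / m * n`
    have h12 : ℓ M / m * n - |ℓ M| ≤ ℓ M * ((n / m : ℕ) : ℝ) := by
      have e : ℓ M / m * n - ℓ M * ((n / m : ℕ) : ℝ) = ℓ M * ((n - ((n / m : ℕ) : ℝ) * m) / m) := by
        field_simp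
      have h13 : |(n - ((n / m : ℕ) : ℝ) * m) / m| ≤ 1 := by
        rw [abs_div, abs_of_pos hm', div_le_one hm', abs_of_nonneg (by linarith)]
        linarith
      have h14 : ℓ M * ((n - ((n / m : ℕ) : ℝ) * m) / m) ≤ |ℓ M| := by
        refine (le_abs_self _).trans ?_
        rw [abs_mul]
        have := abs_nonneg (ℓ M)
        nlinarith
      linarith
    have h15 : (Λ - ε / 2) * n ≤ ℓ M / m * n := by
      have := hx.le
      gcongr
    have h16 : ε * m / 4 * ((n / m : ℕ) : ℝ) ≤ ε / 4 * n := by nlinarith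
    nlinarith [abs_nonneg (ℓ M)]
  -- upper bound
  have hup : ∀ ε : ℝ, 0 < ε → ∀ᶠ n : ℕ in atTop, W f s n ω z / n ≤ Λ + ε := by
    intro ε hε
    let _ := Fintype.ofFinite A
    set a : ℝ := (Fintype.card A : ℝ) with ha
    have ha0 : 0 ≤ a := Nat.cast_nonneg _
    obtain ⟨p, hp⟩ := exists_nat_gt ((2 * C * a + 1) / ε)
    have hp0 : (0 : ℝ) < p := lt_of_le_of_lt (by positivity) hp
    have hpn : 0 < p := by exact_mod_cast hp0
    set Mf : (A → ℕ) → Multiset A := fun h => ∑ x, h x • ({x} : Multiset A) with hMf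
    have hcount : ∀ (h : A → ℕ) (x : A), Multiset.count x (Mf h) = h x := by
      intro h x
      simp only [hMf]
      rw [Multiset.count_sum']
      simp [Multiset.count_nsmul, Multiset.count_singleton]
    have hkt : Tendsto (fun n : ℕ => n / p) atTop atTop := Nat.tendsto_div_const_atTop hpn.ne'
    have hev : ∀ᶠ n : ℕ in atTop, ∀ h ∈ Fintype.piFinset (fun _ : A => Finset.range (2 * p + 2)),
        T f s ((n / p) • Mf h) ω z / ((n / p : ℕ) : ℝ) < ℓ (Mf h) + 1 := by
      rw [eventually_all_finset]
      intro h _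
      exact ((hℓ (Mf h)).comp hkt).eventually_lt_const (by linarith)
    filter_upwards [hev, eventually_ge_atTop p, eventually_ge_atTop 1] with n hn1 hn2 hn3
    have hnpos : (0 : ℝ) < n := by exact_mod_cast hn3
    set k := n / p with hk
    have hk1 : 1 ≤ k := Nat.div_pos hn2 hpn
    have hkpos : (0 : ℝ) < (k : ℝ) := by exact_mod_cast hk1
    obtain ⟨w, hwl, hw⟩ := W_ex f s ω n z
    set c : A → ℕ := fun x => Multiset.count x (w : Multiset A) with hc
    set h : A → ℕ := fun x => (c x + k - 1) / k with hh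
    have hkh : ∀ x, c x ≤ k * h x ∧ k * h x ≤ c x + k := by
      intro x
      simp only [hh]
      have h1 := Nat.div_add_mod (c x + k - 1) k
      have h2 := Nat.mod_lt (c x + k - 1) hk1
      omega
    have hcsum : ∑ x, c x = n := by
      simp only [hc]
      rw [← hwl]
      have := Multiset.sum_count_eq_card (s := (Finset.univ : Finset A)) (m := (w : Multiset A))
        (fun _ _ => Finset.mem_univ _)
      rw [this]
      rfl
    have hcle : ∀ x, c x ≤ n := by
      intro x
      rw [← hcsum]
      exact Finset.single_le_sum (f := c) (fun _ _ => Nat.zero_le _) (Finset.mem_univ x)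
    have hmem : h ∈ Fintype.piFinset (fun _ : A => Finset.range (2 * p + 2)) := by
      rw [Fintype.mem_piFinset]
      intro x
      rw [Finset.mem_range]
      by_contra hcon
      push Not at hcon
      have h1 := (hkh x).2
      have h2 := hcle x
      have h3 : n < p * k + p := by
        have := Nat.lt_div_mul_add (a := n) hpn
        rw [← hk] at this
        linarith [mul_comm k p]
      have h4 : k * (2 * p + 2) ≤ k * h x := Nat.mul_le_mul_left k hcon
      have h5 : p ≤ p * k := Nat.le_mul_of_pos_right p hk1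
      nlinarith
    have h1 := hn1 h hmem
    rw [div_lt_iff₀ hkpos] at h1
    have hle : (w : Multiset A) ≤ k • Mf h := by
      rw [Multiset.le_iff_count]
      intro x
      rw [Multiset.count_nsmul, hcount]
      exact (hkh x).1
    obtain ⟨R, hR⟩ := Multiset.le_iff_exists_add.mp hle
    have hcardM : Multiset.card (Mf h) = ∑ x, h x := by
      simp only [hMf]
      rw [Multiset.card_sum]
      simp
    have hcardR : (n : ℝ) + Multiset.card R = k * Multiset.card (Mf h) := by
      have := congrArg Multiset.card hR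
      rw [Multiset.card_nsmul, Multiset.card_add, Multiset.coe_card, hwl] at this
      exact_mod_cast this.symm
    have hcardR2 : (Multiset.card R : ℝ) ≤ a * k := by
      have h2 : k * Multiset.card (Mf h) ≤ n + Fintype.card A * k := by
        rw [hcardM, Finset.mul_sum]
        calc ∑ x, k * h x ≤ ∑ x, (c x + k) := Finset.sum_le_sum fun x _ => (hkh x).2
          _ = n + Fintype.card A * k := by
            rw [Finset.sum_add_distrib, hcsum]
            simp
      have h3 : (k : ℝ) * Multiset.card (Mf h) ≤ n + a * k := by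
        rw [ha]
        exact_mod_cast h2
      linarith
    have hne : Mf h ≠ 0 := by
      intro h0
      have : Multiset.card (w : Multiset A) ≤ 0 := by
        have := Multiset.card_le_card hle
        rw [h0] at this
        simpa using this
      rw [Multiset.coe_card, hwl] at this
      omega
    have h2 : W f s n ω z ≤ T f s (k • Mf h) ω z + C * Multiset.card R := by
      have h3 := T_le f s (w ++ R.toList) ω z
      rw [pay_append, hw, ← Multiset.coe_add, Multiset.coe_toList, ← hR] at h3
      have h4 := (abs_le.mp (pay_bound f s C hC ω (z + (w.map s).sum) R.toList)).1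
      rw [Multiset.length_toList] at h4
      linarith
    have h3 : ℓ (Mf h) ≤ Λ * Multiset.card (Mf h) := by
      have := le_csSup hSb ⟨Mf h, hne, rfl⟩
      rwa [div_le_iff₀ (hcard _ hne)] at this
    have h4 : Λ * (Multiset.card R : ℝ) ≤ C * (a * k) := by
      have h5 : Λ * (Multiset.card R : ℝ) ≤ |Λ| * Multiset.card R :=
        mul_le_mul_of_nonneg_right (le_abs_self _) (Nat.cast_nonneg _)
      have h6 : |Λ| * (Multiset.card R : ℝ) ≤ C * (a * k) :=
        mul_le_mul hΛb hcardR2 (Nat.cast_nonneg _) hC0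
      linarith
    have h5 : (k : ℝ) * p ≤ n := by
      exact_mod_cast Nat.div_mul_le_self n p
    have h6 : C * (Multiset.card R : ℝ) ≤ C * (a * k) := by gcongr
    have h7 : T f s (k • Mf h) ω z ≤ Λ * n + C * (a * k) + k := by
      have h8 : (ℓ (Mf h) + 1) * k ≤ Λ * (k * Multiset.card (Mf h)) + k := by nlinarith
      rw [← hcardR] at h8
      nlinarith
    have h9 : (2 * C * a + 1) * k ≤ ε * n := by
      rw [div_lt_iff₀ hε] at hp
      have h10 : (2 * C * a + 1) * k ≤ p * ε * k := by gcongr
      nlinarith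
    rw [div_le_iff₀ hnpos]
    nlinarith
  rw [Metric.tendsto_atTop']
  intro ε hε
  obtain ⟨N1, hN1⟩ := eventually_atTop.mp ((hlow (ε / 2) (by positivity)).and
    (hup (ε / 2) (by positivity)))
  refine ⟨N1, fun n hn => ?_⟩
  have h2 := hN1 n hn.le
  rw [Real.dist_eq, abs_lt]
  constructor <;> linarith [h2.1, h2.2]

end Value

end Pool.Agent.Q211.King
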